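import Pool.Agent.MWT.Stmts

/-!
# Row TGW of the table mwt: the structure of the target words
-/

set_option autoImplicit false

namespace Pool.Agent.MWT.H43

open Pool.Agent.Helper14_MV Pool.Agent.Helper2_MV Pool.Agent.MVD

/-- row TGW -/
theorem tgw (h1 : Tg1Stmt) (h2 : Tg2Stmt) (h3 : Tg3Stmt) (h4 : PerStmt) : TgwStmt := by
  intro n β m R c w E hS hK hE hKp
  obtain ⟨B, t, hw, hB, ht, hli, hle, hcn, hth⟩ := h1 n β m R c w hS hK
  obtain ⟨p1, p2, p3, -⟩ := h4 m R hS.pR
  subst hw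
  have k2 := fun (e : ℕ) (he : E e) => h2 n β m R c B t e hS hB ht hth (hE e he)
    (fun a ha => by
      have h5 : a = e := ha
      rw [h5]
      exact hKp e he)
  refine ⟨B, t, rfl, ⟨p1, p2, p3, hB, ht, hli, hle, hcn, hE, fun e he => (k2 e he).1,
    fun e he => (k2 e he).2.1, fun e he => (k2 e he).2.2.1, fun e he => (k2 e he).2.2.2, ?_⟩, hth⟩
  intro e f he hf hne
  refine h3 n β m R c B t e f hS hB ht hth (hE e he) (hE f hf) hne ?_
  intro a ha
  have h5 : a = e ∨ a = f := ha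
  rcases h5 with h5 | h5
  · rw [h5]; exact hKp e he
  · rw [h5]; exact hKp f hf

end Pool.Agent.MWT.H43
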